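import Pool.Agent.W192.CM.Parts2
import Pool.Agent.W340.CM.FINN

/-! # Project CM, second theorem: the conclusion with a general weight function -/

set_option autoImplicit false

open Complex Filter Topology Set

namespace Pool.Agent.W563.CM.FINN

open Pool.Agent.W192.CM
open Pool.Agent.W340.CM.FINN (ev_small order_le prim_pow unit_pow Ef_spec mol_le)

/-- small exponents -/
theorem core (h0 : Pool.Agent.W192.CY.S_DIV) (h1 : C_BASIC) (h2 : C_LAT) (h3 : C_MU)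
    (h4 : C_MOB) (h5 : D_MAINP) (h6 : D_DUALP) (V : ℝ → ℝ) (CV : ℝ)
    (hV : Pool.Agent.W192.CY.VW V CV) (R : Subring ℂ) (ω : ℂ) (hR : CMRing R ω)
    (g : R → ℂ) (hg : Gd R g) (c0 : ℝ) (hc0 : 0 < c0) (M : ℕ) (hM : 1 ≤ M) (ε : ℝ) (hε : 0 < ε)
    (hsmall : ε < 1 / 12) :
    ∃ q0 : ℝ, 2 ≤ q0 ∧ ∀ (κ φ : R) [Finite (Aq R κ)], κ ≠ 0 → IsCoprime φ κ →
      q0 ≤ Complex.normSq (κ : ℂ) →
      ∀ w : ℂ, ‖w‖ = 1 → ∀ L : MulChar (Aq R κ) ℂ → ℂ,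
        (∀ χ : MulChar (Aq R κ) ℂ, Prim χ → (∀ u : R, IsUnit u → ev χ u = 1) →
          ∀ X Y : ℝ, 0 < X → 0 < Y → X * Y = c0 * Complex.normSq (κ : ℂ) →
          L χ = smov V g X χ + w * (ev χ φ * gs ω κ χ / (‖(κ : ℂ)‖ : ℂ)) *
            (starRingEnd ℂ) (smov V g Y χ)) →
        ∀ χ₀ : MulChar (Aq R κ) ℂ, Prim χ₀ → (∀ u : R, IsUnit u → ev χ₀ u = 1) →
          (Complex.normSq (κ : ℂ)) ^ (2 / 3 + ε) ≤ orderOf χ₀ →
          ∃ a : ℕ, Nat.Coprime a (orderOf χ₀) ∧ a % M = 1 % M ∧ Prim (χ₀ ^ a) ∧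
            (∀ u : R, IsUnit u → ev (χ₀ ^ a) u = 1) ∧
            (Complex.normSq (κ : ℂ)) ^ (-ε) ≤ ‖L (χ₀ ^ a)‖ := by
  obtain ⟨m, hm⟩ := h3 R ω hR
  obtain ⟨δ1, C1, q1, hδ1, hC1, H1⟩ := h5 V CV hV R ω hR m g hm hg ε hε hsmall
  obtain ⟨δ2, C2, q2, hδ2, hC2, H2⟩ := h6 V CV hV R ω hR m g hm hg (2 * c0) (by linarith) ε hε hsmall
  obtain ⟨C3, hC3, H3⟩ := h2 R ω hR
  have H3' : ∀ y : ℝ, 0 ≤ y → {α : R | Complex.normSq (α : ℂ) ≤ y}.Finite ∧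
      (Set.ncard {α : R | Complex.normSq (α : ℂ) ≤ y} : ℝ) ≤ C3 * (1 + y) := by
    intro y hy
    have h := H3 1 one_ne_zero 0 y hy
    have e1 : {α : R | Complex.normSq (α : ℂ) ≤ y ∧ (1 : R) ∣ α - 0} =
        {α : R | Complex.normSq (α : ℂ) ≤ y} := by
      ext α
      simp
    rw [e1] at h
    refine ⟨h.1, h.2.trans (le_of_eq ?_)⟩
    have : Complex.normSq (((1 : R) : ℂ)) = 1 := by
      rw [OneMemClass.coe_one, map_one]
    rw [this, div_one]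
  set δ := min δ1 δ2 with hδdef
  have hδ : 0 < δ := lt_min hδ1 hδ2
  obtain ⟨C4, hC4, -, H4⟩ := h0 (δ / 2) (by linarith)
  obtain ⟨q3, H5⟩ := ev_small ((C1 + C2) * C4 * M) (2 * C3) (δ / 2) (ε / 2) (by linarith)
    (by linarith)
  refine ⟨max (max (max q1 q2) q3) 2, le_max_right _ _, ?_⟩
  intro κ φ _ hκ hφκ hq0' w hw L hL χ₀ hχ₀ hu₀ hle
  have hNd : (orderOf χ₀ : ℝ) ≤ Complex.normSq (κ : ℂ) := by
    rw [← ((h1 R ω hR).2.2.2.2 κ hκ).2]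
    exact_mod_cast order_le χ₀
  generalize hq : Complex.normSq (κ : ℂ) = q at *
  have hq0 : max (max q1 q2) q3 ≤ q := le_trans (le_max_left _ _) hq0'
  have hq2 : (2 : ℝ) ≤ q := le_trans (le_max_right _ _) hq0'
  have hqpos : (0 : ℝ) < q := by linarith
  have hq1 : (1 : ℝ) ≤ q := by linarith
  have hqa : q1 ≤ q := le_trans (le_trans (le_max_left _ _) (le_max_left _ _)) hq0
  have hqb : q2 ≤ q := le_trans (le_trans (le_max_right _ _) (le_max_left _ _)) hq0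
  have hqc : q3 ≤ q := le_trans (le_max_right _ _) hq0
  -- the two parts
  have hMain := H1 κ hκ (by rw [hq]; exact hqa) χ₀ hu₀ (by rw [hq]; exact hle)
  have hDual := H2 κ φ hκ hφκ (by rw [hq]; exact hqb) χ₀ (by rw [hq]; exact hle)
  rw [hq] at hMain hDual
  set d := orderOf χ₀ with hddef
  have hd1 : (1 : ℝ) < d := by
    refine lt_of_lt_of_le ?_ hle
    exact Real.one_lt_rpow (by linarith) (by linarith)
  have hd1' : 1 < d := by exact_mod_cast hd1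
  have hdpos : (0 : ℝ) < d := by linarith
  by_contra hcon
  push Not at hcon
  set M₁ := Nat.gcd M d with hM₁
  have hM₁1 : 1 ≤ M₁ := Nat.gcd_pos_of_pos_left _ (by omega)
  have hM₁d : M₁ ∣ d := Nat.gcd_dvd_right _ _
  have hM₁0 : M₁ ≤ M := Nat.gcd_le_left _ (by omega)
  have hEf : ∀ χ ∈ Ef χ₀ M₁, Prim χ ∧ (∀ u : R, IsUnit u → ev χ u = 1) ∧
      ‖L χ‖ ≤ q ^ (-ε) := by
    intro χ hχ
    obtain ⟨a, ha, ha', hχa⟩ := Ef_spec χ₀ χ M hχ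
    have hp := prim_pow χ₀ a hd1' ha hχ₀
    have hu := unit_pow χ₀ a hd1' ha hu₀
    rw [hχa]
    exact ⟨hp, hu, (hcon a ha ha' hp hu).le⟩
  -- sizes
  set B := q ^ (ε / 2) with hB
  have hBpos : 0 < B := Real.rpow_pos_of_pos hqpos _
  have hB1 : 1 ≤ B := Real.one_le_rpow hq1 (by linarith)
  set X := q ^ (2 / 3 : ℝ) / 2 with hX
  set Y := 2 * c0 * q ^ (1 / 3 : ℝ) with hY
  have hXpos : 0 < X := half_pos (Real.rpow_pos_of_pos hqpos _)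
  have hYpos : 0 < Y := mul_pos (by linarith) (Real.rpow_pos_of_pos hqpos _)
  have hXY : X * Y = c0 * q := by
    have : q ^ (2 / 3 : ℝ) * q ^ (1 / 3 : ℝ) = q := by
      rw [← Real.rpow_add hqpos]
      norm_num
    calc X * Y = c0 * (q ^ (2 / 3 : ℝ) * q ^ (1 / 3 : ℝ)) := by rw [hX, hY]; ring
      _ = c0 * q := by rw [this]
  have hL' : ∀ χ ∈ Ef χ₀ M₁, L χ = smov V g X χ + w * (ev χ φ * gs ω κ χ / (‖(κ : ℂ)‖ : ℂ)) *
        (starRingEnd ℂ) (smov V g Y χ) := by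
    intro χ hχ
    exact hL χ (hEf χ hχ).1 (hEf χ hχ).2.1 X Y hXpos hYpos hXY
  have hMn := hMain M₁ hM₁1 hM₁d
  have hDn := hDual M₁ hM₁1 hM₁d
  set T := ∑ χ ∈ Ef χ₀ M₁, mol m g B χ * smov V g X χ with hT
  set D := ∑ χ ∈ Ef χ₀ M₁, mol m g B χ * (ev χ φ * gs ω κ χ / (‖(κ : ℂ)‖ : ℂ)) *
      (starRingEnd ℂ) (smov V g Y χ) with hD
  have hTot : ∑ χ ∈ Ef χ₀ M₁, mol m g B χ * L χ = T + w * D := by
    rw [hT, hD, Finset.mul_sum, ← Finset.sum_add_distrib]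
    refine Finset.sum_congr rfl fun χ hχ => ?_
    rw [hL' χ hχ]
    ring
  obtain ⟨K, hK⟩ : ∃ K : ℕ, K = (Ef χ₀ M₁).card := ⟨_, rfl⟩
  have hcard0 : K * Nat.totient M₁ = Nat.totient d := by
    obtain ⟨t, ht, -⟩ := h4 (Aq R κ) χ₀ M₁ hM₁1 hM₁d
    rw [hK]
    exact ht
  have hφpos : (0 : ℝ) < Nat.totient d := by
    exact_mod_cast Nat.totient_pos.2 (by omega)
  have hKφ : (Nat.totient d : ℝ) ≤ K * M := by
    rw [← hcard0]
    push_cast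
    have : (Nat.totient M₁ : ℝ) ≤ M := by
      exact_mod_cast (Nat.totient_le M₁).trans hM₁0
    gcongr
  have hKpos : (0 : ℝ) < K := by
    rcases Nat.eq_zero_or_pos K with h | h
    · rw [h, Nat.cast_zero, zero_mul] at hKφ
      linarith
    · exact_mod_cast h
  rw [← hK] at hMn
  -- upper bound
  have hupper : ‖T + w * D‖ ≤ 2 * C3 * (K : ℝ) * q ^ (-(ε / 2)) := by
    rw [← hTot]
    calc ‖∑ χ ∈ Ef χ₀ M₁, mol m g B χ * L χ‖
        ≤ ∑ χ ∈ Ef χ₀ M₁, ‖mol m g B χ * L χ‖ := norm_sum_le _ _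
      _ ≤ ∑ χ ∈ Ef χ₀ M₁, (C3 * (1 + B)) * q ^ (-ε) := by
          refine Finset.sum_le_sum fun χ hχ => ?_
          rw [norm_mul]
          exact mul_le_mul (mol_le hR h1 C3 H3' m hm g hg κ B hBpos.le χ) (hEf χ hχ).2.2
            (norm_nonneg _) (by positivity)
      _ = (K : ℝ) * ((C3 * (1 + B)) * q ^ (-ε)) := by
          rw [Finset.sum_const, nsmul_eq_mul, hK]
      _ ≤ (K : ℝ) * ((C3 * (B + B)) * q ^ (-ε)) := by gcongr
      _ = 2 * C3 * (K : ℝ) * (q ^ (ε / 2) * q ^ (-ε)) := by rw [hB]; ring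
      _ = 2 * C3 * (K : ℝ) * q ^ (-(ε / 2)) := by
          rw [← Real.rpow_add hqpos]
          congr 2
          ring
  -- lower bound
  have hlow : (K : ℝ) ≤ ‖T + w * D‖ + C1 * d * q ^ (-δ1) + C2 * d * q ^ (-δ2) := by
    have e1 : ((K : ℕ) : ℂ) = (T + w * D) - (T - (K : ℂ)) - w * D := by
      ring
    calc (K : ℝ) = ‖((K : ℕ) : ℂ)‖ := by simp
      _ = ‖(T + w * D) - (T - (K : ℂ)) - w * D‖ := by rw [← e1]
      _ ≤ ‖(T + w * D) - (T - (K : ℂ))‖ + ‖w * D‖ := norm_sub_le _ _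
      _ ≤ ‖T + w * D‖ + ‖T - (K : ℂ)‖ + ‖w * D‖ := by
          gcongr
          exact norm_sub_le _ _
      _ ≤ _ := by
          rw [norm_mul, hw, one_mul]
          gcongr
  have hq1' : q ^ (-δ1) ≤ q ^ (-δ) :=
    Real.rpow_le_rpow_of_exponent_le hq1 (neg_le_neg (min_le_left _ _))
  have hq2' : q ^ (-δ2) ≤ q ^ (-δ) :=
    Real.rpow_le_rpow_of_exponent_le hq1 (neg_le_neg (min_le_right _ _))
  have hφ := H4 d (by omega)
  have hdφ : (d : ℝ) * q ^ (-δ) ≤ C4 * Nat.totient d * q ^ (-(δ / 2)) := by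
    have e1 : (d : ℝ) = (d : ℝ) ^ (1 - δ / 2) * (d : ℝ) ^ (δ / 2) := by
      rw [← Real.rpow_add hdpos]
      simp
    have e2 : (d : ℝ) ^ (δ / 2) ≤ q ^ (δ / 2) :=
      Real.rpow_le_rpow hdpos.le hNd (by linarith)
    calc (d : ℝ) * q ^ (-δ)
        = (d : ℝ) ^ (1 - δ / 2) * (d : ℝ) ^ (δ / 2) * q ^ (-δ) := by rw [← e1]
      _ ≤ (C4 * Nat.totient d) * q ^ (δ / 2) * q ^ (-δ) := by
          gcongr
      _ = C4 * Nat.totient d * (q ^ (δ / 2) * q ^ (-δ)) := by ring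
      _ = C4 * Nat.totient d * q ^ (-(δ / 2)) := by
          rw [← Real.rpow_add hqpos]
          congr 2
          ring
  have hfin := H5 q hqc
  have key : (K : ℝ) ≤ K *
      ((C1 + C2) * C4 * M * q ^ (-(δ / 2)) + 2 * C3 * q ^ (-(ε / 2))) := by
    calc (K : ℝ) ≤ ‖T + w * D‖ + C1 * d * q ^ (-δ1) +
          C2 * d * q ^ (-δ2) := hlow
      _ ≤ 2 * C3 * K * q ^ (-(ε / 2)) + C1 * d * q ^ (-δ) +
          C2 * d * q ^ (-δ) := by gcongr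
      _ = 2 * C3 * K * q ^ (-(ε / 2)) + (C1 + C2) * (d * q ^ (-δ)) := by
          ring
      _ ≤ 2 * C3 * K * q ^ (-(ε / 2)) + (C1 + C2) *
          (C4 * Nat.totient d * q ^ (-(δ / 2))) := by gcongr
      _ ≤ 2 * C3 * K * q ^ (-(ε / 2)) + (C1 + C2) *
          (C4 * (K * M) * q ^ (-(δ / 2))) := by gcongr
      _ = _ := by ring
  have : (K : ℝ) * ((C1 + C2) * C4 * M * q ^ (-(δ / 2)) +
      2 * C3 * q ^ (-(ε / 2))) < K * 1 := by
    gcongr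
  linarith

theorem d_finn (h0 : Pool.Agent.W192.CY.S_DIV) (h1 : C_BASIC) (h2 : C_LAT) (h3 : C_MU)
    (h4 : C_MOB) (h5 : D_MAINP) (h6 : D_DUALP) : D_FINN := by
  intro V CV hV R ω hR g hg c0 hc0 M hM ε hε
  obtain ⟨q0, hq0, H⟩ := core h0 h1 h2 h3 h4 h5 h6 V CV hV R ω hR g hg c0 hc0 M hM (min ε (1 / 24))
    (lt_min hε (by norm_num)) (lt_of_le_of_lt (min_le_right _ _) (by norm_num))
  refine ⟨q0, fun κ φ _ hκ hφκ hq w hw L hL χ₀ hχ₀ hu₀ hle => ?_⟩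
  have hN1 : (1 : ℝ) ≤ Complex.normSq (κ : ℂ) := by linarith
  obtain ⟨a, ha1, ha2, ha3, ha4, ha5⟩ := H κ φ hκ hφκ hq w hw L hL χ₀ hχ₀ hu₀
    ((Real.rpow_le_rpow_of_exponent_le hN1 (by linarith [min_le_left ε (1 / 24)])).trans hle)
  refine ⟨a, ha1, ha2, ha3, ha4, le_trans ?_ ha5⟩
  exact Real.rpow_le_rpow_of_exponent_le hN1 (neg_le_neg (min_le_left _ _))

end Pool.Agent.W563.CM.FINN
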